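import Pool.Agent.Helper4.It.Goals
import Pool.Agent.Helper60.It.C4
import Pool.Agent.Helper88.Mono.Dual
import Pool.Agent.Helper33.Mono.BoxA
import Pool.Agent.Helper50.Mono.LA
import Pool.Agent.Helper20.Mono.Crd

/-! Packet C3: divisibility on a unimodular cone. -/

namespace Mono

namespace It

open Finset Filter Topology Mono.Comp

namespace C3

variable {n : ℕ}

theorem sat_mono {δ F : Finset (Fin n → ℤ)} (h : δ ⊆ F) :
    sat (δ : Set (Fin n → ℤ)) ≤ sat (F : Set (Fin n → ℤ)) := by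
  rintro x ⟨k, hk, hx⟩
  exact ⟨k, hk, AddSubgroup.closure_mono (by exact_mod_cast h) hx⟩

theorem sat_le_closure {δ F : Finset (Fin n → ℤ)} (hF : Indep F)
    (h1 : idx (F : Set (Fin n → ℤ)) = 1) (h : δ ⊆ F) :
    sat (δ : Set (Fin n → ℤ)) ≤ AddSubgroup.closure (δ : Set (Fin n → ℤ)) := by
  classical
  intro x hx
  have h2 : sat (F : Set (Fin n → ℤ)) ≤ AddSubgroup.closure (F : Set (Fin n → ℤ)) :=
    AddSubgroup.relIndex_eq_one.1 h1
  obtain ⟨z, hz⟩ := H33.closure_comb F (h2 (sat_mono h hx))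
  obtain ⟨c, hc⟩ := H33.sat_comb δ hx
  have h3 : ∑ u ∈ F, (z u : ℝ) • toR u = ∑ u ∈ F, (if u ∈ δ then c u else 0) • toR u := by
    have e1 : ∑ u ∈ F, (z u : ℝ) • toR u = toR x := by
      rw [hz, H33.toR_sum]
      exact Finset.sum_congr rfl fun u _ => (H33.toR_smul _ _).symm
    have e2 : ∑ u ∈ F, (if u ∈ δ then c u else 0) • toR u = toR x := by
      rw [hc, ← Finset.sum_subset h]
      · exact Finset.sum_congr rfl fun u hu => by rw [if_pos hu]
      · intro u _ hu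
        rw [if_neg hu, zero_smul]
    rw [e1, e2]
  have h4 := hF.coeff_eq h3
  have h5 : x = ∑ u ∈ δ, z u • u := by
    rw [hz, ← Finset.sum_subset h]
    intro u hu hu'
    have := h4 u hu
    simp only [if_neg hu'] at this
    rw [show z u = 0 by exact_mod_cast this, zero_smul]
  rw [h5]
  exact AddSubgroup.sum_mem _ fun u hu =>
    AddSubgroup.zsmul_mem _ (AddSubgroup.subset_closure (by exact_mod_cast hu)) _

/-- The edge vectors. -/
def edgS (φ : Finset (Fin n → ℤ)) : Set (Fin n → ℤ) := {x | ∃ u ∈ φ, ∃ v ∈ φ, x = u - v}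

theorem dimF_eq (φ : Finset (Fin n → ℤ)) :
    dimF φ = Module.finrank ℝ (Submodule.span ℝ (toR '' edgS φ)) := by
  have : toR '' (φ : Set (Fin n → ℤ)) -ᵥ toR '' (φ : Set (Fin n → ℤ)) = toR '' edgS φ := by
    ext x
    rw [Set.mem_vsub]
    constructor
    · rintro ⟨_, ⟨u, hu, rfl⟩, _, ⟨v, hv, rfl⟩, rfl⟩
      exact ⟨u - v, ⟨u, by exact_mod_cast hu, v, by exact_mod_cast hv, rfl⟩, by
        rw [H33.toR_sub, vsub_eq_sub]⟩
    · rintro ⟨_, ⟨u, hu, v, hv, rfl⟩, rfl⟩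
      exact ⟨_, ⟨u, by exact_mod_cast hu, rfl⟩, _, ⟨v, by exact_mod_cast hv, rfl⟩, by
        rw [H33.toR_sub, vsub_eq_sub]⟩
  rw [dimF, vectorSpan, this]

/-- An integral form which is constant on `φ` lies in `sat δ`. -/
theorem mem_sat {δ φ : Finset (Fin n → ℤ)} (hδ : Indep δ) (hc : δ.card + dimF φ = n)
    (h : ∀ a ∈ δ, ∀ u ∈ φ, ∀ v ∈ φ, a ⬝ᵥ u = a ⬝ᵥ v) {κ : Fin n → ℤ}
    (hκ : ∀ u ∈ φ, ∀ v ∈ φ, κ ⬝ᵥ u = κ ⬝ᵥ v) : κ ∈ sat (δ : Set (Fin n → ℤ)) := by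
  have hED : ∀ e ∈ edgS φ, ∀ d ∈ (δ : Set (Fin n → ℤ)), e ⬝ᵥ d = 0 := by
    rintro e ⟨u, hu, v, hv, rfl⟩ d hd
    rw [dotProduct_comm, dotProduct_sub, h d (by exact_mod_cast hd) u hu v hv, sub_self]
  have h1 := G2.finrank_orth (edgS φ)
  rw [← dimF_eq] at h1
  have h2 : G2.satM (δ : Set (Fin n → ℤ)) ≤ G2.orth (edgS φ) := G2.sat_le_orth hED
  have h3 : Module.finrank ℝ (Submodule.span ℝ (toR '' (δ : Set (Fin n → ℤ)))) = δ.card :=
    G4.finrank_span_indep hδ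
  have h4 : Submodule.span ℝ (toR '' (δ : Set (Fin n → ℤ))) =
      Submodule.span ℝ (toR '' (G2.orth (edgS φ) : Set (Fin n → ℤ))) := by
    apply Submodule.eq_of_le_of_finrank_eq
    · rw [← G2.span_toR_sat]
      exact Submodule.span_mono (Set.image_mono h2)
    · rw [h3, G2.finrank_eq]
      omega
  apply G2.mem_sat_of_mem_span
  rw [h4]
  refine Submodule.subset_span ⟨κ, ?_, rfl⟩
  rintro e ⟨u, hu, v, hv, rfl⟩
  rw [dotProduct_sub, hκ u hu v hv, sub_self]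

end C3

theorem dvdCone : DvdCone := by
  classical
  intro n A T hA h0 hA0 hT φ hφ δ hδ
  rw [coneF, Finset.mem_filter] at hδ
  obtain ⟨hδT, hcard, hdot⟩ := hδ
  obtain ⟨F, hF, hδF⟩ := Finset.mem_biUnion.1 hδT
  rw [Finset.mem_powerset] at hδF
  have hFi := T.mx_indep F hF
  have hsat := C3.sat_le_closure hFi (hT F hF) hδF
  refine ⟨AddSubgroup.relIndex_eq_one.2 hsat, ?_⟩
  -- the face
  have hpos := H60.latDist_pos hA h0 hA0 hφ
  have hφ' := hφ
  rw [cfaces, Finset.mem_filter] at hφ'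
  obtain ⟨-, a₀, ha₀, hφa⟩ := hφ'
  obtain ⟨v₀, hv₀A, hv₀⟩ := H60.NA_mem hA hA0 (fun i => (ha₀ i).le)
  have hv₀φ : v₀ ∈ φ := by
    rw [hφa, face, Finset.mem_filter]
    exact ⟨hv₀A, hv₀.symm⟩
  obtain ⟨-, κ₀, hκ₀⟩ : 0 < latDist φ ∧ ∃ k : Fin n → ℤ, ∀ u ∈ φ, k ⬝ᵥ u = (latDist φ : ℤ) := by
    have hne : {N : ℕ | 0 < N ∧ ∃ k : Fin n → ℤ, ∀ u ∈ φ, k ⬝ᵥ u = (N : ℤ)}.Nonempty := by
      by_contra hcon
      rw [Set.not_nonempty_iff_eq_empty] at hcon
      rw [latDist, hcon, Nat.sInf_empty] at hpos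
      exact lt_irrefl _ hpos
    exact Nat.sInf_mem hne
  have hmin : ∀ (κ : Fin n → ℤ) (M : ℤ), (∀ u ∈ φ, κ ⬝ᵥ u = M) → (latDist φ : ℤ) ∣ M := by
    intro κ M hκ
    have hN : (0 : ℤ) < latDist φ := by exact_mod_cast hpos
    by_contra hcon
    have h1 : 0 < M % (latDist φ : ℤ) := by
      refine lt_of_le_of_ne (Int.emod_nonneg _ hN.ne') ?_
      intro h
      exact hcon (Int.dvd_of_emod_eq_zero h.symm)
    have h2 : M % (latDist φ : ℤ) < latDist φ := Int.emod_lt_of_pos _ hN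
    have h3 : latDist φ ≤ (M % (latDist φ : ℤ)).toNat := by
      apply Nat.sInf_le
      refine ⟨by omega, κ - (M / (latDist φ : ℤ)) • κ₀, fun u hu => ?_⟩
      rw [sub_dotProduct, smul_dotProduct, hκ u hu, hκ₀ u hu, Int.toNat_of_nonneg h1.le,
        smul_eq_mul]
      have := Int.mul_ediv_add_emod M (latDist φ : ℤ)
      linarith
    omega
  intro e
  constructor
  · intro h
    have hk := C3.mem_sat (hFi.subset hδF) hcard
      (fun a ha u hu v hv => by rw [hdot a ha u hu, hdot a ha v hv])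
      (κ := κ₀) (fun u hu v hv => by rw [hκ₀ u hu, hκ₀ v hv])
    obtain ⟨z, hz⟩ := H33.closure_comb δ (hsat hk)
    have h1 : (latDist φ : ℤ) = ∑ a ∈ δ, z a * NA A a := by
      rw [← hκ₀ v₀ hv₀φ, hz, sum_dotProduct]
      refine Finset.sum_congr rfl fun a ha => ?_
      rw [smul_dotProduct, hdot a ha v₀ hv₀φ, smul_eq_mul]
    have h2 : (e : ℤ) ∣ latDist φ := by
      rw [h1]
      exact Finset.dvd_sum fun a ha => Dvd.dvd.mul_left (h a ha) _
    exact_mod_cast h2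
  · intro h a ha
    have h1 := hmin a (NA A a) (fun u hu => hdot a ha u hu)
    exact dvd_trans (by exact_mod_cast h) h1

end It

end Mono
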