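import Pool.Agent.Helper4.It.Goals
import Pool.Agent.Helper57.Comp.K3

/-! # Project IT, packet K2: the box points of a cone generated by basis vectors -/

namespace Mono

namespace It

open Finset Filter Topology Mono.Comp

/-- K2. -/
theorem boxCountZ : BoxCountZ := by
  intro n Z τ V w hτ hτZ hV hw a
  classical
  by_cases ha : ∃ z : ℤ, a = z
  swap
  · rw [if_neg ha]
    apply Finset.sum_eq_zero
    intro G hG
    exact K3.lstarR_eq_zero ((mem_powerset.1 hG).trans hτZ) w (fun z hz => ha ⟨z, hz⟩)
  rw [if_pos ha]
  obtain ⟨z₀, hz₀⟩ := ha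
  obtain ⟨e, he⟩ : ∃ e : Fin n → (Fin n → ℤ), ∀ i, e i = Pi.single i 1 := ⟨_, fun _ => rfl⟩
  have e1 : ∀ i j, e i j = if j = i then 1 else 0 := by
    intro i j
    rw [he, Pi.single_apply]
  have einj : Function.Injective e := by
    intro i j hij
    have := congrFun hij i
    rw [e1, e1, if_pos rfl] at this
    by_contra hne
    rw [if_neg hne] at this
    exact one_ne_zero this
  obtain ⟨G₀, hG₀⟩ : ∃ G₀ : Finset (Fin n → ℤ),
    G₀ = (univ.filter (fun i => Int.fract (w i) ≠ 0)).image e := ⟨_, rfl⟩
  have hmem : ∀ i, e i ∈ G₀ ↔ Int.fract (w i) ≠ 0 := by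
    intro i
    rw [hG₀, mem_image]
    constructor
    · rintro ⟨j, hj, hji⟩
      rw [einj hji] at hj
      exact (mem_filter.1 hj).2
    · intro h
      exact ⟨i, mem_filter.2 ⟨mem_univ _, h⟩, rfl⟩
  have hG₀τ : G₀ ⊆ τ := by
    intro u hu
    rw [hG₀, mem_image] at hu
    obtain ⟨i, hi, rfl⟩ := hu
    have hi := (mem_filter.1 hi).2
    have hiV : i ∈ V := by
      by_contra h
      rw [hw i h] at hi
      exact hi (by simp)
    obtain ⟨u, hu, hui⟩ := (mem_filter.1 (hV hiV)).2
    obtain ⟨j, hj⟩ := hτ u hu
    rw [← he] at hj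
    rw [hj, e1] at hui
    have hij : i = j := by
      by_contra h
      exact hui (if_neg h)
    rw [hij, ← hj]
    exact hu
  have hval : ∀ G ⊆ τ, ∀ c : (Fin n → ℤ) → ℝ, ∀ i,
      (∑ u ∈ G, c u • toR u) i = if e i ∈ G then c (e i) else 0 := by
    intro G hG c i
    rw [Finset.sum_apply]
    have h0 : ∀ u ∈ G, u ≠ e i → (c u • toR u) i = 0 := by
      intro u hu hne
      obtain ⟨j, hj⟩ := hτ u (hG hu)
      rw [← he] at hj
      have : u i = 0 := by
        rw [hj, e1, if_neg]
        intro hij
        exact hne (by rw [hj, hij])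
      rw [Pi.smul_apply, toR, this, Int.cast_zero, smul_zero]
    by_cases hi : e i ∈ G
    · rw [if_pos hi, Finset.sum_eq_single (e i) h0 (fun h => absurd hi h)]
      rw [Pi.smul_apply, toR, e1, if_pos rfl, Int.cast_one, smul_eq_mul, mul_one]
    · rw [if_neg hi]
      exact Finset.sum_eq_zero fun u hu => h0 u hu (fun h => hi (h ▸ hu))
  -- the coordinates of a box point
  have hb : ∀ G ⊆ τ, ∀ (b : Fin n → ℤ) (c : (Fin n → ℤ) → ℝ), (∀ u ∈ G, 0 < c u ∧ c u < 1) →
      w + toR b = ∑ u ∈ G, c u • toR u → ∀ i, b i = -⌊w i⌋ ∧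
        (e i ∈ G ↔ Int.fract (w i) ≠ 0) := by
    intro G hG b c hc hbc i
    have h1 := congrFun hbc i
    rw [hval G hG c i, Pi.add_apply, toR] at h1
    by_cases hi : e i ∈ G
    · rw [if_pos hi] at h1
      have h2 := hc _ hi
      have h3 : ⌊w i⌋ = -b i := by
        rw [Int.floor_eq_iff]
        push_cast
        constructor
        · linarith [h2.1]
        · linarith [h2.2]
      refine ⟨by omega, fun _ => ?_, fun _ => hi⟩
      rw [Int.fract, h3]
      push_cast
      have := h2.1
      intro h4
      linarith
    · rw [if_neg hi] at h1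
      have h3 : w i = ((-b i : ℤ) : ℝ) := by
        push_cast
        linarith
      refine ⟨?_, fun h => absurd h hi, fun h => absurd ?_ h⟩
      · rw [h3, Int.floor_intCast]
        omega
      · rw [h3, Int.fract_intCast]
  have key : ∀ G ⊆ τ, lstarR Z w a G = if G = G₀ then 1 else 0 := by
    intro G hG
    unfold lstarR
    by_cases hGG : G = G₀
    · rw [if_pos hGG, Nat.card_eq_one_iff_unique]
      constructor
      · constructor
        rintro ⟨b, c, hc, hbc, -⟩ ⟨b', c', hc', hbc', -⟩
        apply Subtype.ext
        funext i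
        exact (hb G hG b c hc hbc i).1.trans (hb G hG b' c' hc' hbc' i).1.symm
      · refine ⟨⟨fun i => -⌊w i⌋, fun u => ∑ i, (if u = e i then Int.fract (w i) else 0), ?_, ?_,
          -z₀, ?_⟩⟩
        · intro u hu
          obtain ⟨j, hj⟩ := hτ u (hG hu)
          rw [← he] at hj
          have hs : (∑ i, (if u = e i then Int.fract (w i) else 0)) = Int.fract (w j) := by
            rw [Finset.sum_eq_single j, if_pos hj]
            · intro i _ hij
              rw [if_neg]
              intro h
              exact hij (einj (h.symm.trans hj))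
            · intro h
              exact absurd (mem_univ j) h
          show 0 < (∑ i, (if u = e i then Int.fract (w i) else 0)) ∧
            (∑ i, (if u = e i then Int.fract (w i) else 0)) < 1
          rw [hs]
          have h1 : Int.fract (w j) ≠ 0 := (hmem j).1 (by rw [← hGG, ← hj]; exact hu)
          exact ⟨lt_of_le_of_ne (Int.fract_nonneg _) (Ne.symm h1), Int.fract_lt_one _⟩
        · funext i
          rw [hval G hG _ i, Pi.add_apply, toR]
          have hs : (∑ j, (if e i = e j then Int.fract (w j) else 0)) = Int.fract (w i) := by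
            rw [Finset.sum_eq_single i, if_pos rfl]
            · intro j _ hij
              rw [if_neg]
              intro h
              exact hij (einj h).symm
            · intro h
              exact absurd (mem_univ i) h
          rw [hs]
          have h2 : w i + ((-⌊w i⌋ : ℤ) : ℝ) = Int.fract (w i) := by
            rw [Int.fract]
            push_cast
            ring
          rw [h2]
          by_cases hi : e i ∈ G
          · rw [if_pos hi]
          · rw [if_neg hi]
            by_contra h
            exact hi (by rw [hGG]; exact (hmem i).2 h)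
        · rw [Finset.sdiff_eq_empty_iff_subset.2 (hG.trans hτZ), Finset.sum_empty, hz₀]
          push_cast
          ring
    · rw [if_neg hGG]
      have : IsEmpty {b : Fin n → ℤ // ∃ c : (Fin n → ℤ) → ℝ, (∀ u ∈ G, 0 < c u ∧ c u < 1) ∧
          w + toR b = ∑ u ∈ G, c u • toR u ∧ ∃ z : ℤ, ∑ u ∈ G \ Z, c u - a = z} := by
        constructor
        rintro ⟨b, c, hc, hbc, -⟩
        apply hGG
        ext u
        constructor
        · intro hu
          obtain ⟨j, hj⟩ := hτ u (hG hu)
          rw [← he] at hj
          rw [hj, hmem]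
          exact ((hb G hG b c hc hbc j).2).1 (hj ▸ hu)
        · intro hu
          obtain ⟨j, hj⟩ := hτ u (hG₀τ hu)
          rw [← he] at hj
          rw [hj] at hu ⊢
          exact ((hb G hG b c hc hbc j).2).2 ((hmem j).1 hu)
      exact Nat.card_of_isEmpty
  rw [Finset.sum_eq_single G₀]
  · rw [key G₀ hG₀τ, if_pos rfl]
  · intro G hG hne
    rw [key G (mem_powerset.1 hG), if_neg hne]
  · intro h
    exact absurd (mem_powerset.2 hG₀τ) h

end It

end Mono
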