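import Pool.Agent.Helper4.It.Goals
import Pool.Agent.Helper62.Comp.P9

/-! Packet T4: the twisted formula of a chart at generic weights. -/

namespace Mono

namespace It

open Finset Filter Topology Mono.Comp

namespace T4

open Mono.Comp.P9

variable {n k : ℕ}

section lifted

variable {A Z : Finset (Fin k → ℤ)} {Φ : Fan k} {blk : Fin n → Fin k} {N : Fin n → ℕ}

theorem WtermT_lift (h3 : LiftCrd) (h4 : LiftIdx) (v' : Finset (Fin n → ℤ) → ℝ)
    (v : Finset (Fin k → ℤ) → ℝ) (hv : ∀ τ, v' (τ.image (lift blk N)) = v τ) (ht : Tri A Z Φ)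
    (hb : Function.Surjective blk) (hN : ∀ j, 0 < N j) {F : Finset (Fin k → ℤ)} (hF : F ∈ Φ.mx)
    {c : Fin k → Fin n} (hc : c ∈ sel blk) (ρ : Fin n → ℝ) (s : ℝ) :
    WtermR v' (liftZ blk Z) (liftCone blk N Z F c) s (fun j => (N j : ℝ) * ρ j) =
      Rf v Z F s (fun i => ρ (c i)) *
        (∏ i ∈ (KF Z F)ᶜ, (N (c i) : ℝ)⁻¹) *
      (∏ j ∈ univ.filter (fun j => blk j ∉ KF Z F ∧ j ≠ c (blk j)),
        ((N j : ℝ) * (ρ j - ρ (c (blk j))))⁻¹) *
      ∏ j ∈ univ.filter (fun j => blk j ∈ KF Z F),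
        ((N j : ℝ) * (ρ j - ((fun i => ρ (c i)) (blk j) -
          crd F (fun i => ρ (c i)) (Pi.single (blk j) 1))))⁻¹ := by
  classical
  obtain ⟨e1, e2, e3, e4, e5, e6⟩ := h3 n k A Z Φ ht blk N hb hN F hF c hc ρ
  have e7 := h4 n k A Z Φ ht blk N hb hN F hF c hc
  have hinj : Function.Injective (lift blk N) := lift_inj hb hN
  set w : Fin n → ℝ := fun j => (N j : ℝ) * ρ j with hw
  set x : Fin k → ℝ := fun i => ρ (c i) with hx
  set L := liftCone blk N Z F c with hL
  -- the index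
  have hcompl : univ.filter (fun i : Fin k => (Pi.single i 1 : Fin k → ℤ) ∉ F ∩ Z) =
      (KF Z F)ᶜ := by
    ext i
    simp [mem_KF]
  rw [hcompl] at e7
  -- the product over the coordinates
  have hdisj : Disjoint ((F \ Z).image (lift blk N))
      ((coneJ blk Z F c).image (fun j => (Pi.single j 1 : Fin n → ℤ))) := by
    rw [Finset.disjoint_left]
    intro v hv hv'
    obtain ⟨u, hu, rfl⟩ := Finset.mem_image.1 hv
    obtain ⟨j, hj, hj'⟩ := Finset.mem_image.1 hv'
    obtain ⟨g1, g2⟩ := lift_eq_single hb hN hj'.symm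
    rcases mem_coneJ.1 hj with h | h
    · rw [g1] at hu
      exact (Finset.mem_sdiff.1 hu).2 (Finset.mem_inter.1 (mem_KF.1 h)).2
    · exact h (g2 _ (mem_sel.1 hc _)).symm
  set P : ℝ := ∏ j ∈ coneJ blk Z F c, crd L w (Pi.single j 1) with hP
  have hprod : ∀ τ ∈ (F \ Z).powerset, ∏ u ∈ L \ τ.image (lift blk N), crd L w u =
      (∏ u ∈ (F \ Z) \ τ, crd F x u) * P := by
    intro τ hτ
    rw [Finset.mem_powerset] at hτ
    have g1 : L \ τ.image (lift blk N) = ((F \ Z) \ τ).image (lift blk N) ∪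
        (coneJ blk Z F c).image (fun j => (Pi.single j 1 : Fin n → ℤ)) := by
      rw [hL, liftCone, Finset.union_sdiff_distrib, Finset.image_sdiff (F \ Z) τ hinj]
      congr 1
      rw [Finset.sdiff_eq_self_iff_disjoint]
      exact (Finset.disjoint_of_subset_left (Finset.image_subset_image hτ) hdisj).symm
    have g2 : Disjoint (((F \ Z) \ τ).image (lift blk N))
        ((coneJ blk Z F c).image (fun j => (Pi.single j 1 : Fin n → ℤ))) :=
      Finset.disjoint_of_subset_left (Finset.image_subset_image Finset.sdiff_subset) hdisj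
    rw [g1, Finset.prod_union g2, Finset.prod_image (fun a _ b _ h => hinj h),
      Finset.prod_image (fun a _ b _ h => single_inj h)]
    congr 1
    refine Finset.prod_congr rfl fun u hu => ?_
    exact e4 u (Finset.mem_sdiff.1 hu).1
  have hPP : P⁻¹ = (∏ j ∈ univ.filter (fun j => blk j ∉ KF Z F ∧ j ≠ c (blk j)),
        ((N j : ℝ) * (ρ j - ρ (c (blk j))))⁻¹) *
      ∏ j ∈ univ.filter (fun j => blk j ∈ KF Z F),
        ((N j : ℝ) * (ρ j - (x (blk j) - crd F x (Pi.single (blk j) 1))))⁻¹ := by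
    have g1 : coneJ blk Z F c = univ.filter (fun j => blk j ∉ KF Z F ∧ j ≠ c (blk j)) ∪
        univ.filter (fun j => blk j ∈ KF Z F) := by
      ext j
      rw [mem_coneJ]
      simp only [Finset.mem_union, Finset.mem_filter, Finset.mem_univ, true_and]
      tauto
    have g2 : Disjoint (univ.filter (fun j => blk j ∉ KF Z F ∧ j ≠ c (blk j)))
        (univ.filter (fun j => blk j ∈ KF Z F)) := by
      rw [Finset.disjoint_left]
      intro j hj hj'
      exact (Finset.mem_filter.1 hj).2.1 (Finset.mem_filter.1 hj').2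
    rw [hP, ← Finset.prod_inv_distrib]
    have g3 : ∀ j ∈ coneJ blk Z F c, (crd L w (Pi.single j 1))⁻¹ =
        ((N j : ℝ) * (ρ j - ρ (c (blk j)) +
          (if Pi.single (blk j) 1 ∈ F ∩ Z then crd F x (Pi.single (blk j) 1) else 0)))⁻¹ := by
      intro j hj
      rw [e5 j hj]
    rw [Finset.prod_congr rfl g3, g1, Finset.prod_union g2]
    congr 1
    · refine Finset.prod_congr rfl fun j hj => ?_
      have := (Finset.mem_filter.1 hj).2.1
      rw [mem_KF] at this
      rw [if_neg this, add_zero]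
    · refine Finset.prod_congr rfl fun j hj => ?_
      have := (Finset.mem_filter.1 hj).2
      rw [mem_KF] at this
      rw [if_pos this, hx]
      congr 2
      ring
  -- the sum
  rw [WtermR, e3, e6, e7, Finset.powerset_image, Finset.sum_image]
  · have hsum : ∑ τ ∈ (F \ Z).powerset, (-1) ^ (τ.image (lift blk N)).card *
        v' (τ.image (lift blk N)) / ∏ u ∈ L \ τ.image (lift blk N), crd L w u =
        (∑ τ ∈ (F \ Z).powerset, (-1) ^ τ.card * v τ /
          ∏ u ∈ (F \ Z) \ τ, crd F x u) * P⁻¹ := by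
      rw [Finset.sum_mul]
      refine Finset.sum_congr rfl fun τ hτ => ?_
      rw [hprod τ hτ, Finset.card_image_of_injective _ hinj, hv τ,
        div_mul_eq_div_div, div_eq_mul_inv (_ / _) P]
    rw [hsum, hPP, Rf]
    push_cast
    rw [Finset.prod_inv_distrib (s := (KF Z F)ᶜ)]
    generalize (∑ τ ∈ (F \ Z).powerset, (-1) ^ τ.card * v τ /
          ∏ u ∈ (F \ Z) \ τ, crd F x u) = S1
    generalize (∏ j ∈ univ.filter (fun j => blk j ∉ KF Z F ∧ j ≠ c (blk j)),
        ((N j : ℝ) * (ρ j - ρ (c (blk j))))⁻¹) = S2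
    generalize (∏ j ∈ univ.filter (fun j => blk j ∈ KF Z F),
        ((N j : ℝ) * (ρ j - (x (blk j) - crd F x (Pi.single (blk j) 1))))⁻¹) = S3
    rw [one_div, one_div, mul_inv, mul_inv, mul_inv]
    ring
  · intro a _ b _ h
    exact Finset.image_injective hinj h

theorem sumT_F (h3 : LiftCrd) (h4 : LiftIdx) (v' : Finset (Fin n → ℤ) → ℝ)
    (v : Finset (Fin k → ℤ) → ℝ) (hv : ∀ τ, v' (τ.image (lift blk N)) = v τ)
    (h6 : PartFrac) (ht : Tri A Z Φ)
    (hb : Function.Surjective blk) (hN : ∀ j, 0 < N j) {F : Finset (Fin k → ℤ)} (hF : F ∈ Φ.mx)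
    {ρ : Fin n → ℝ} (hρ : GenR Φ blk ρ) (s : ℝ) :
    ∑ F' ∈ (sel blk).image (liftCone blk N Z F),
      WtermR v' (liftZ blk Z) F' s (fun j => (N j : ℝ) * ρ j) =
    (∏ j, (N j : ℝ)⁻¹) * ∑ c ∈ sel blk,
      (∏ j ∈ univ.filter (fun j => j ≠ c (blk j)), 1 / (ρ j - ρ (c (blk j)))) *
        WtermR v Z F s (fun i => ρ (c i)) := by
  classical
  -- a choice
  obtain ⟨c₀, hc₀⟩ : ∃ c₀ : Fin k → Fin n, c₀ ∈ sel blk := by
    choose c₀ h using hb
    exact ⟨c₀, mem_sel.2 h⟩
  have himg : (sel blk).image (liftCone blk N Z F) =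
      ((sel blk).filter (fun c => ∀ i ∈ KF Z F, c i = c₀ i)).image (liftCone blk N Z F) := by
    ext F'
    rw [Finset.mem_image, Finset.mem_image]
    constructor
    · rintro ⟨c, hc, rfl⟩
      refine ⟨fun i => if i ∈ KF Z F then c₀ i else c i, ?_, ?_⟩
      · rw [Finset.mem_filter, mem_sel]
        refine ⟨fun i => ?_, fun i hi => if_pos hi⟩
        split_ifs
        · exact mem_sel.1 hc₀ i
        · exact mem_sel.1 hc i
      · exact cone_congr fun i hi => if_neg hi
    · rintro ⟨c, hc, rfl⟩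
      exact ⟨c, (Finset.mem_filter.1 hc).1, rfl⟩
  rw [himg, Finset.sum_image]
  · have hp := h6 n k blk N ρ (KF Z F) (Rf v Z F s)
      (fun x i => x i - crd F x (Pi.single i 1)) hb hN hρ.2
      (fun x y hxy => Rf_congr hF _ s hxy)
      (fun x y hxy i hi => by
        have := (crd_congr (Z := Z) hF hxy).2 i hi
        linarith)
      (fun c hc j hj => by
        have := nz hF hρ hc hj
        intro h
        apply this
        simp only [] at h
        linarith) c₀ hc₀
    rw [Finset.sum_congr rfl (fun c hc =>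
      WtermT_lift h3 h4 v' v hv ht hb hN hF (Finset.mem_filter.1 hc).1 ρ s)]
    rw [hp]
    congr 1
    refine Finset.sum_congr rfl fun c _ => ?_
    rw [WtermR_eq ht]
    congr 2
    refine Finset.prod_congr rfl fun i _ => ?_
    congr 1
    simp only []
    ring
  · intro c hc c' hc' he
    have hc := Finset.mem_filter.1 (Finset.mem_coe.1 hc)
    have hc' := Finset.mem_filter.1 (Finset.mem_coe.1 hc')
    funext i
    by_cases hi : i ∈ KF Z F
    · rw [hc.2 i hi, hc'.2 i hi]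
    · exact cone_inj_c hb hN hc.1 hc'.1 he hi

end lifted

end T4

/-- T4. -/
theorem chartFormulaT (h0 : ChartFormula) (h1 : FaceSumT) (h2 : LiftFan) (h3 : LiftCrd)
    (h4 : LiftIdx) (h5 : LiftVol) (h6 : PartFrac) (h7 : ZWIdentityT) (h8 : LiftLat) :
    ChartFormulaT := by
  classical
  intro n k A Z Φ hk ht blk N hb hN T hT e₀ he₀ s hs ρ hρ0 hρ
  by_cases he1 : e₀ = 1
  · subst he1
    have g0 := h0 n k A Z Φ hk ht blk N hb hN T hT s hs ρ hρ0 hρ
    have g1 : ZrealT 1 (fun j => (N j : ℝ) * ρ j) (A.image (lift blk N)) T s =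
        ZrealR (fun j => (N j : ℝ) * ρ j) (A.image (lift blk N)) T s := by
      unfold ZrealT ZrealR coneF
      rw [Finset.filter_true_of_mem (fun φ _ => one_dvd _)]
      refine Finset.sum_congr rfl fun φ _ => ?_
      rw [cT, if_pos rfl]
    have g2 : vT 1 (blkGcd blk N) = vG (blkGcd blk N) := by
      funext τ
      rw [vT, if_pos (one_dvd _)]
    rw [g1, g2, αT, βT, γT, if_pos rfl, if_pos rfl, if_pos rfl, one_mul]
    exact g0
  obtain ⟨Ψ, htΨ, hmx⟩ := h2 n k A Z Φ ht blk N hb hN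
  have hn : 0 < n := by
    obtain ⟨j, _⟩ := hb ⟨0, hk⟩
    exact lt_of_le_of_lt (Nat.zero_le _) j.2
  set w : Fin n → ℝ := fun j => (N j : ℝ) * ρ j with hw
  have hw0 : ∀ j, 0 < w j := fun j => mul_pos (Nat.cast_pos.2 (hN j)) (hρ0 j)
  have hdest : ∀ F' ∈ Ψ.mx, ∃ F ∈ Φ.mx, ∃ c ∈ sel blk, liftCone blk N Z F c = F' := by
    intro F' hF'
    rw [hmx, Finset.mem_biUnion] at hF'
    obtain ⟨F, hF, hF'⟩ := hF'
    rw [Finset.mem_image] at hF'
    obtain ⟨c, hc, h⟩ := hF'
    exact ⟨F, hF, c, hc, h⟩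
  -- genericity
  have hgen : Ψ.Generic w := by
    refine ⟨fun F' hF' u hu => ?_, fun i => (hw0 i).ne'⟩
    obtain ⟨F, hF, c, hc, rfl⟩ := hdest F' hF'
    obtain ⟨e1, e2, e3, e4, e5, e6⟩ := h3 n k A Z Φ ht blk N hb hN F hF c hc ρ
    rw [liftCone, Finset.mem_union, Finset.mem_image, Finset.mem_image] at hu
    rcases hu with ⟨v, hv, rfl⟩ | ⟨j, hj, rfl⟩
    · rw [hw, e4 v hv]
      exact (hρ.1 c hc).1 F hF v (Finset.mem_sdiff.1 hv).1
    · rw [hw, e5 j hj]
      refine mul_ne_zero (Nat.cast_ne_zero.2 (hN j).ne') ?_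
      split_ifs with h
      · exact P9.nz (Z := Z) hF hρ hc (P9.mem_KF.2 h)
      · rcases P9.mem_coneJ.1 hj with h' | h'
        · exact absurd (P9.mem_KF.1 h') h
        · rw [add_zero]
          exact sub_ne_zero.2 (hρ.2 _ _ h' (P9.mem_sel.1 hc _).symm)
  have hpsi : ∀ F' ∈ Ψ.mx, s + psi (liftZ blk Z) F' w ≠ 0 := by
    intro F' hF'
    have := P9.psi_nonneg htΨ hF' (fun i => (hw0 i).le)
    linarith
  have hpos : ∀ δ ∈ T.mx, ∀ a ∈ δ, (0 : ℝ) ≤ NA (A.image (lift blk N)) a ∧ 0 < w ⬝ᵥ toR a := by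
    intro δ hδ a ha
    have hface : T.IsFace δ := ⟨δ, hδ, Finset.Subset.refl δ⟩
    have h0 : ∀ i, 0 ≤ a i := T.vert_nonneg a (hface.subset_vert T ha)
    refine ⟨by exact_mod_cast H33Z.NA_nonneg htΨ.1 htΨ.2.1 h0, ?_⟩
    have hne : a ≠ 0 := by
      intro h
      have := (hface.indep T).ne_zero ⟨a, ha⟩
      apply this
      simp only [h]
      exact toR_zero
    obtain ⟨i, hi⟩ : ∃ i, a i ≠ 0 := by
      by_contra hcon
      push Not at hcon
      exact hne (funext hcon)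
    rw [dotProduct]
    refine Finset.sum_pos' (fun j _ => ?_) ⟨i, Finset.mem_univ i, ?_⟩
    · rw [toR_apply]
      exact mul_nonneg (hw0 j).le (by exact_mod_cast h0 j)
    · rw [toR_apply]
      have : 0 < a i := lt_of_le_of_ne (h0 i) (Ne.symm hi)
      exact mul_pos (hw0 i) (by exact_mod_cast this)
  have hl0 : latDist (∅ : Finset (Fin n → ℤ)) = 1 := by
    unfold latDist
    apply le_antisymm
    · exact Nat.sInf_le ⟨one_pos, 0, fun u hu => absurd hu (Finset.notMem_empty u)⟩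
    · exact (Nat.sInf_mem (s := {N : ℕ | 0 < N ∧ ∃ k : Fin n → ℤ,
        ∀ u ∈ (∅ : Finset (Fin n → ℤ)), k ⬝ᵥ u = (N : ℤ)})
        ⟨1, one_pos, 0, fun u hu => absurd hu (Finset.notMem_empty u)⟩).1
  have hc0 : (fun τ : Finset (Fin n → ℤ) => if e₀ ∣ latDist τ then (1 : ℝ) else 0) ∅ = 0 := by
    simp only []
    rw [hl0, if_neg]
    intro h
    exact he1 (Nat.dvd_one.1 h)
  have hkey := h7 n (A.image (lift blk N)) (liftZ blk Z) Ψ T hn htΨ hT w hgen s hpsi
    (fun δ hδ a ha => by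
      obtain ⟨g1, g2⟩ := hpos δ hδ a ha
      have := mul_nonneg g1 hs.le
      linarith)
    (fun δ hδ a ha => (hpos δ hδ a ha).2.ne')
    (fun τ => if e₀ ∣ latDist τ then 1 else 0) hc0
  have hv : ∀ τ : Finset (Fin k → ℤ), (fun τ : Finset (Fin n → ℤ) =>
      (if e₀ ∣ latDist τ then (1 : ℝ) else 0) * (vol τ : ℝ) ^ 2) (τ.image (lift blk N)) =
      vT e₀ (blkGcd blk N) τ := by
    intro τ
    simp only []
    rw [h8 n k blk N hb hN τ, h5 n k blk N hb hN τ, vT, vG]
    split_ifs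
    · rw [one_mul]
    · rw [zero_mul]
  have hsum : ZrealT e₀ w (A.image (lift blk N)) T s =
      ∑ τ ∈ Ψ.faces.filter (fun τ => τ.Nonempty ∧ τ ⊆ A.image (lift blk N)),
        (fun τ => if e₀ ∣ latDist τ then (1 : ℝ) else 0) τ * (-1) ^ (τ.card - 1) * (vol τ : ℝ) *
          Jsum (A.image (lift blk N)) (liftZ blk Z) T τ s w := by
    rw [h1 n e₀ w _ _ Ψ T htΨ s]
    refine Finset.sum_congr rfl fun τ _ => ?_
    simp only []
    split_ifs
    · rw [cT, if_neg he1, one_mul]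
    · rw [zero_mul, zero_mul, zero_mul]
  rw [hsum, hkey, αT, βT, γT, if_neg he1, if_neg he1, if_neg he1, one_mul, one_mul, zero_mul,
    zero_sub, neg_inj]
  -- the sum over the cones
  rw [WR, hmx, Finset.sum_biUnion]
  · rw [Finset.sum_congr rfl (fun F hF => T4.sumT_F h3 h4 _ _ hv h6 ht hb hN hF hρ s),
      ← Finset.mul_sum, Finset.sum_comm, DDc]
    congr 1
    refine Finset.sum_congr rfl fun c _ => ?_
    rw [WR, Finset.mul_sum]
  · intro F hF F' hF' hne
    rw [Function.onFun, Finset.disjoint_left]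
    intro L hL hL'
    rw [Finset.mem_image] at hL hL'
    obtain ⟨c, hc, rfl⟩ := hL
    obtain ⟨c', hc', he⟩ := hL'
    apply hne
    have g1 := (h3 n k A Z Φ ht blk N hb hN F hF c hc ρ).2.2.1
    have g2 := (h3 n k A Z Φ ht blk N hb hN F' hF' c' hc' ρ).2.2.1
    rw [he, g1] at g2
    have g3 : F \ Z = F' \ Z := Finset.image_injective (P9.lift_inj hb hN) g2
    exact P9.cone_inj_F hb hN ht hc hc' g3 he.symm

end It

end Mono
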